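import Mathlib

set_option autoImplicit false

namespace Pool.Agent.Results.MP_70387e_co.NonRegular

/-- The cells of the board `[n]^3`, `[n] = {1, …, n}`. -/
def InBoard (n : ℕ) (x : ℤ × ℤ × ℤ) : Prop :=
  (1 ≤ x.1 ∧ x.1 ≤ n) ∧ (1 ≤ x.2.1 ∧ x.2.1 ≤ n) ∧ (1 ≤ x.2.2 ∧ x.2.2 ≤ n)

/-- Two distinct cells attack each other. -/
def Attack (x y : ℤ × ℤ × ℤ) : Prop :=
  x ≠ y ∧ ∃ (t : ℤ) (v : ℤ × ℤ × ℤ), t ≠ 0 ∧ v ≠ 0 ∧ v.1 ∈ ({-1, 0, 1} : Set ℤ) ∧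
    v.2.1 ∈ ({-1, 0, 1} : Set ℤ) ∧ v.2.2 ∈ ({-1, 0, 1} : Set ℤ) ∧ y - x = t • v

/-- A set of `n ^ 2` pairwise non-attacking cells of the board. -/
def IsSolution (n : ℕ) (S : Finset (ℤ × ℤ × ℤ)) : Prop :=
  (∀ x ∈ S, InBoard n x) ∧ S.card = n ^ 2 ∧ ∀ x ∈ S, ∀ y ∈ S, ¬ Attack x y

/-- Every queen `(i, j, k)` has `k ≡ a i + b j + c (mod n)`. -/
def IsRegular (n : ℕ) (S : Finset (ℤ × ℤ × ℤ)) : Prop :=
  ∃ a b c : ℤ, ∀ x ∈ S, x.2.2 ≡ a * x.1 + b * x.2.1 + c [ZMOD n]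

def f (i j : ℤ) : ℤ := (2 * i + 4 * j + if i % 11 = 0 ∧ j % 11 = 0 then 11 else 0) % 121 + 1

@[irreducible] noncomputable def S : Finset (ℤ × ℤ × ℤ) :=
  (Finset.Icc (1 : ℤ) 121 ×ˢ Finset.Icc (1 : ℤ) 121).image fun p => (p.1, p.2, f p.1 p.2)

theorem mem_S (i j k : ℤ) : (i, j, k) ∈ S ↔ (1 ≤ i ∧ i ≤ 121) ∧ (1 ≤ j ∧ j ≤ 121) ∧ f i j = k := by
  unfold S
  simp only [Finset.mem_image, Finset.mem_product, Finset.mem_Icc, Prod.mk.injEq]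
  constructor
  · rintro ⟨p, ⟨h1, h2⟩, rfl, rfl, rfl⟩; exact ⟨h1, h2, rfl⟩
  · rintro ⟨h1, h2, h3⟩; exact ⟨(i, j), ⟨h1, h2⟩, rfl, rfl, h3⟩

theorem key (i j t a b c : ℤ) (ht : t ≠ 0) (ht1 : -121 < t) (ht2 : t < 121)
    (hv : ¬ (a = 0 ∧ b = 0 ∧ c = 0)) (ha : a = -1 ∨ a = 0 ∨ a = 1) (hb : b = -1 ∨ b = 0 ∨ b = 1)
    (hc : c = -1 ∨ c = 0 ∨ c = 1) : f (i + t * a) (j + t * b) ≠ f i j + t * c := by
  unfold f
  intro h
  have h11 : t % 11 = 0 := by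
    rcases ha with rfl | rfl | rfl <;> rcases hb with rfl | rfl | rfl <;>
      rcases hc with rfl | rfl | rfl <;> split_ifs at h <;> omega
  have e1 : (i + t * a) % 11 = i % 11 := by rcases ha with rfl | rfl | rfl <;> omega
  have e2 : (j + t * b) % 11 = j % 11 := by rcases hb with rfl | rfl | rfl <;> omega
  rw [e1, e2] at h
  generalize (if i % 11 = 0 ∧ j % 11 = 0 then (11 : ℤ) else 0) = z at h
  rcases ha with rfl | rfl | rfl <;> rcases hb with rfl | rfl | rfl <;>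
    rcases hc with rfl | rfl | rfl <;> omega

theorem result : ∃ (n : ℕ) (S : Finset (ℤ × ℤ × ℤ)), 1 ≤ n ∧ IsSolution n S ∧ ¬ IsRegular n S := by
  refine ⟨121, S, by norm_num, ⟨?_, ?_, ?_⟩, ?_⟩
  · rintro ⟨i, j, k⟩ h
    obtain ⟨h1, h2, rfl⟩ := (mem_S i j k).1 h
    refine ⟨h1, h2, ?_⟩
    show 1 ≤ f i j ∧ f i j ≤ 121
    unfold f
    omega
  · unfold S
    rw [Finset.card_image_of_injective]
    · simp
    · intro p q h
      simp only [Prod.mk.injEq] at h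
      exact Prod.ext h.1 h.2.1
  · rintro ⟨i, j, k⟩ hx ⟨i', j', k'⟩ hy ⟨-, t, ⟨a, b, c⟩, ht, hv, ha, hb, hc, h⟩
    obtain ⟨h1, h2, rfl⟩ := (mem_S i j k).1 hx
    obtain ⟨h3, h4, rfl⟩ := (mem_S i' j' k').1 hy
    simp only [Set.mem_insert_iff, Set.mem_singleton_iff] at ha hb hc
    simp only [Prod.mk_sub_mk, Prod.smul_mk, smul_eq_mul, Prod.mk.injEq] at h
    have hv' : ¬ (a = 0 ∧ b = 0 ∧ c = 0) := by
      rintro ⟨rfl, rfl, rfl⟩; exact hv rfl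
    have hf : ∀ i j, 1 ≤ f i j ∧ f i j ≤ 121 := fun i j => by unfold f; omega
    have h5 := hf i j
    have h6 := hf i' j'
    have ht' : -121 < t ∧ t < 121 := by
      rcases ha with rfl | rfl | rfl <;> rcases hb with rfl | rfl | rfl <;>
        rcases hc with rfl | rfl | rfl <;> omega
    refine key i j t a b c ht ht'.1 ht'.2 hv' ha hb hc ?_
    rw [← h.1, ← h.2.1, ← h.2.2]
    simp
  · rintro ⟨a, b, c, h⟩
    have h1 := h (10, 11, f 10 11) ((mem_S _ _ _).2 (by decide))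
    have h2 := h (11, 11, f 11 11) ((mem_S _ _ _).2 (by decide))
    have h3 := h (12, 11, f 12 11) ((mem_S _ _ _).2 (by decide))
    simp only [Int.ModEq, f] at h1 h2 h3
    norm_num at h1 h2 h3
    omega

end Pool.Agent.Results.MP_70387e_co.NonRegular
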